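import Pool.Agent.H67R3.RH3

set_option autoImplicit false

namespace Pool.Agent.Results.MP_53fefd_al.RelHypBorel

open Pool.Agent.H67R3.RHDefs

/-- The set `ℛℋ` of non-elementary relatively hyperbolic marked groups is a Borel subset of the
space `𝒢` of finitely generated marked groups. -/
theorem result : @MeasurableSet MarkedGroups (borel MarkedGroups) RH :=
  Pool.Agent.H67R3.RH.borel_RH

end Pool.Agent.Results.MP_53fefd_al.RelHypBorel
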